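import Pool.Agent.K3h56.E2.Stm2

/-!
# Indices in a group with an involution (brick GT for helper56)
-/

set_option autoImplicit false

namespace Pool.Agent.K3h23.E2

open Pool.Agent.K3h56.E2

theorem card_sup_inf {M : Type} [CommGroup M] (A B : Subgroup M) :
    Nat.card (A ⊔ B : Subgroup M) * Nat.card (A ⊓ B : Subgroup M) = Nat.card A * Nat.card B := by
  have h1 := Subgroup.relIndex_mul_relIndex (⊥ : Subgroup M) B (A ⊔ B) bot_le le_sup_right
  have h2 := Subgroup.relIndex_mul_relIndex (⊥ : Subgroup M) (A ⊓ B) A bot_le inf_le_left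
  rw [Subgroup.relIndex_bot_left, Subgroup.relIndex_bot_left, Subgroup.relIndex_sup_right] at h1
  rw [Subgroup.relIndex_bot_left, Subgroup.relIndex_bot_left, Subgroup.inf_relIndex_left] at h2
  rw [← h1, ← h2]
  ring

theorem t_GT : S_GT := by
  intro M _ τ hτ U μ P N hU hμU hμ htor hP hN e heμ he1 he2 hτe h2 r hr Y X hYP hXN hYμ
  have hPU : P ≤ U := fun x hx => ((hP x).1 hx).1
  have hNU : N ≤ U := fun x hx => ((hN x).1 hx).1
  have hφ : ∀ x, ((MonoidHom.id M) / τ) x = x / τ x := fun x => rfl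
  -- torsion
  have hfin : ∀ x ∈ μ, ∃ k : ℕ, 0 < k ∧ x ^ k = 1 := by
    intro x hx
    obtain ⟨k, hk, h⟩ := isOfFinOrder_iff_pow_eq_one.1 (isOfFinOrder_of_finite (⟨x, hx⟩ : μ))
    exact ⟨k, hk, congrArg Subtype.val h⟩
  have htor2 : ∀ x ∈ U, x * x ∈ μ → x ∈ μ := by
    intro x hx hx2
    obtain ⟨k, hk, h⟩ := hfin _ hx2
    refine htor x hx ⟨2 * k, by omega, ?_⟩
    rw [pow_mul, pow_two]
    exact h
  have hτμ : ∀ x ∈ μ, τ x ∈ μ := by
    intro x hx
    obtain ⟨k, hk, h⟩ := hfin x hx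
    exact htor _ (hU x (hμU hx)) ⟨k, hk, by rw [← map_pow, h, map_one]⟩
  -- (B)
  have hB : Y ⊔ X ⊔ μ = μ ⊔ P ⊔ X := by
    have h : Y ⊔ μ = P ⊔ μ := by
      apply le_antisymm
      · exact sup_le_sup_right hYP _
      · refine sup_le ?_ le_sup_right
        rw [← hYμ]
        exact sup_le le_sup_left (inf_le_left.trans le_sup_right)
    rw [sup_right_comm, h, sup_comm P μ]
  -- (D)
  have hD : (μ ⊔ P ⊔ X) ⊓ N = X ⊔ (μ ⊓ N) := by
    apply le_antisymm
    · rintro x ⟨hx, hxN⟩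
      obtain ⟨a, ha, y, hy, rfl⟩ := Subgroup.mem_sup.1 hx
      obtain ⟨ζ, hζ, p, hp, rfl⟩ := Subgroup.mem_sup.1 ha
      have hζp : ζ * p ∈ N := (N.mul_mem_cancel_right (hXN hy)).1 hxN
      have hμm : ζ * p ∈ μ := by
        refine htor2 _ (hNU hζp) ?_
        have h3 := ((hN _).1 hζp).2
        rw [map_mul, ((hP p).1 hp).2] at h3
        have h4 : ζ * p * (ζ * p) = ζ / τ ζ := by
          rw [eq_div_iff_mul_eq']
          have h5 : ζ * p * (ζ * p) * τ ζ = (ζ * p) * ((τ ζ * p) * ζ) := by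
            ac_rfl
          rw [h5, h3]
          simp [mul_comm]
        rw [h4]
        exact μ.div_mem hζ (hτμ ζ hζ)
      rw [mul_comm]
      exact Subgroup.mul_mem_sup hy ⟨hμm, hζp⟩
    · refine sup_le (le_inf le_sup_right hXN) (le_inf ?_ inf_le_right)
      exact inf_le_left.trans (le_sup_left.trans le_sup_left)
  -- (C)
  have hC : (μ ⊔ P ⊔ X).relIndex (μ ⊔ P ⊔ N) = (X ⊔ (μ ⊓ N)).relIndex N := by
    have h : μ ⊔ P ⊔ N = N ⊔ (μ ⊔ P ⊔ X) := by
      rw [sup_comm N, sup_assoc (μ ⊔ P) X N, sup_eq_right.2 hXN]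
    rw [h, Subgroup.relIndex_sup_right, ← Subgroup.inf_relIndex_right, hD]
  have hA := Subgroup.relIndex_mul_relIndex (μ ⊔ P ⊔ X) (μ ⊔ P ⊔ N) U
    (sup_le_sup_left hXN _) (sup_le (sup_le hμU hPU) hNU)
  have hE := Subgroup.relIndex_mul_relIndex (P ⊔ N) (μ ⊔ P ⊔ N) U
    (by rw [sup_assoc]; exact le_sup_right) (sup_le (sup_le hμU hPU) hNU)
  have hE' : (P ⊔ N).relIndex (μ ⊔ P ⊔ N) = (P ⊔ N).relIndex μ := by
    rw [sup_assoc, Subgroup.relIndex_sup_right]
  -- (F)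
  have hF0 : (Subgroup.comap ((MonoidHom.id M) / τ) (N.map (powMonoidHom 2))) ⊓ U = P ⊔ N := by
    apply le_antisymm
    · rintro x ⟨hx, hxU⟩
      obtain ⟨y, hy, hyx⟩ := hx
      have hyx' : y ^ 2 = x / τ x := hyx
      have h3 : x / y ∈ P := by
        refine (hP _).2 ⟨U.div_mem hxU (hNU hy), ?_⟩
        rw [map_div, ((hN y).1 hy).2, div_inv_eq_mul, eq_div_iff_mul_eq', mul_assoc, ← pow_two,
          hyx', mul_div_cancel]
      have h4 : x = (x / y) * y := (div_mul_cancel x y).symm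
      rw [h4]
      exact Subgroup.mul_mem_sup h3 hy
    · refine sup_le ?_ ?_
      · intro p hp
        refine ⟨?_, hPU hp⟩
        show ((MonoidHom.id M) / τ) p ∈ N.map (powMonoidHom 2)
        rw [hφ, ((hP p).1 hp).2, div_self']
        exact one_mem _
      · intro y hy
        refine ⟨?_, hNU hy⟩
        refine ⟨y, hy, ?_⟩
        show y ^ 2 = ((MonoidHom.id M) / τ) y
        rw [hφ, ((hN y).1 hy).2, div_inv_eq_mul, pow_two]
  have hF : (P ⊔ N).relIndex U =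
      (N.map (powMonoidHom 2)).relIndex (U.map ((MonoidHom.id M) / τ)) := by
    rw [← Subgroup.relIndex_comap, ← Subgroup.inf_relIndex_right (Subgroup.comap _ _) U, hF0]
  -- (G)
  have hG := Subgroup.relIndex_mul_relIndex (N.map (powMonoidHom 2))
    (U.map ((MonoidHom.id M) / τ)) N (by
      rintro _ ⟨y, hy, rfl⟩
      refine ⟨y, hNU hy, ?_⟩
      show ((MonoidHom.id M) / τ) y = y ^ 2
      rw [hφ, ((hN y).1 hy).2, div_inv_eq_mul, pow_two]) (by
      rintro _ ⟨x, hx, rfl⟩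
      show ((MonoidHom.id M) / τ) x ∈ N
      rw [hφ]
      refine (hN _).2 ⟨U.div_mem hx (hU x hx), ?_⟩
      rw [map_div, hτ, inv_div])
  rw [hr] at hG
  -- (H)
  have hH := Subgroup.relIndex_mul_relIndex (⊥ : Subgroup M) ((P ⊔ N) ⊓ μ) μ bot_le inf_le_right
  rw [Subgroup.relIndex_bot_left, Subgroup.relIndex_bot_left, Subgroup.inf_relIndex_right] at hH
  -- (I)
  have hI0 : (P ⊔ N) ⊓ μ = (μ ⊓ P) ⊔ (μ ⊓ N) := by
    apply le_antisymm
    · rintro x ⟨hx, hxμ⟩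
      obtain ⟨p, hp, y, hy, rfl⟩ := Subgroup.mem_sup.1 hx
      have hpμ : p ∈ μ := by
        refine htor2 _ (hPU hp) ?_
        have h3 : p * p = (p * y) * τ (p * y) := by
          rw [map_mul, ((hP p).1 hp).2, ((hN y).1 hy).2]
          rw [mul_mul_mul_comm, mul_inv_cancel, mul_one]
        rw [h3]
        exact μ.mul_mem hxμ (hτμ _ hxμ)
      exact Subgroup.mul_mem_sup ⟨hpμ, hp⟩ ⟨(μ.mul_mem_cancel_left hpμ).1 hxμ, hy⟩
    · refine sup_le (le_inf (inf_le_right.trans le_sup_left) inf_le_left)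
        (le_inf (inf_le_right.trans le_sup_right) inf_le_left)
  have hI1 : (μ ⊓ P) ⊓ (μ ⊓ N) = Subgroup.zpowers e := by
    apply le_antisymm
    · rintro x ⟨⟨hxμ, hxP⟩, -, hxN⟩
      have h3 := ((hP x).1 hxP).2
      have h4 := ((hN x).1 hxN).2
      have h5 : x * x = 1 := by
        rw [h3] at h4
        nth_rewrite 2 [h4]
        exact mul_inv_cancel x
      rcases h2 x hxμ h5 with rfl | rfl
      · exact one_mem _
      · exact Subgroup.mem_zpowers _
    · rw [Subgroup.zpowers_le]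
      have heU : e ∈ U := hμU heμ
      refine ⟨⟨heμ, (hP e).2 ⟨heU, hτe⟩⟩, heμ, (hN e).2 ⟨heU, ?_⟩⟩
      rw [hτe]
      exact eq_inv_of_mul_eq_one_left he2
  have hord : orderOf e = 2 := orderOf_eq_prime (by rw [pow_two, he2]) he1
  have hI := card_sup_inf (μ ⊓ P) (μ ⊓ N)
  rw [hI1, Nat.card_zpowers, hord, ← hI0] at hI
  -- the end
  rw [hE', hF] at hE
  rw [hB, ← hA, hC, ← hH, mul_assoc _ (Nat.card (μ ⊓ P : Subgroup M)), ← hI]
  have h9 := hG
  rw [← hE] at h9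
  rw [pow_succ] at h9
  calc (X ⊔ μ ⊓ N).relIndex N * (μ ⊔ P ⊔ N).relIndex U *
        (Nat.card ↥((P ⊔ N) ⊓ μ) * (P ⊔ N).relIndex μ) *
        (U.map ((MonoidHom.id M) / τ)).relIndex N
      = (X ⊔ μ ⊓ N).relIndex N * Nat.card ↥((P ⊔ N) ⊓ μ) *
        ((P ⊔ N).relIndex μ * (μ ⊔ P ⊔ N).relIndex U *
          (U.map ((MonoidHom.id M) / τ)).relIndex N) := by ring
    _ = (X ⊔ μ ⊓ N).relIndex N * Nat.card ↥((P ⊔ N) ⊓ μ) * (2 ^ r * 2) := by rw [h9]
    _ = _ := by ring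

end Pool.Agent.K3h23.E2
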